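import Pool.Agent.Helper10.AT.Exact
import Pool.Agent.Helper85.AT.Flip

/-!
# AT+: the exact count for the diagram seen from below

The travelling maps, the regions and the order of the visits are the same, `lf` is negated, so the weight `v` of every smoothed crossing becomes `1 - v`.
-/

set_option autoImplicit false

namespace Pool.Agent.Helper10.AT

open Pool.Agent.Helper85.Exp Pool.Agent.Helper61.TW Pool.Agent.Helper85.AT Classical Finset

variable {P : Type} {G : Sh P} {A : Finset P} {m : P → ℕ} {b : P}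

theorem twist_fl (hT : Twist G A m) : Twist (fl G) A m where
  pos := hT.pos
  cov := hT.cov
  inj := hT.inj
  big := hT.big
  alt a ha r hr := by
    have h := hT.alt a ha r hr
    show (!G.lf (G.nxt^[r + 1] a)) = !(!G.lf (G.nxt^[r] a))
    rw [h]

theorem mem_image_op {S : Finset P} {i : P} : i ∈ S.image G.op ↔ G.op i ∈ S := by
  constructor
  · intro h
    obtain ⟨x, hx, rfl⟩ := mem_image.1 h
    rwa [G.op_op]
  · intro h
    exact mem_image.2 ⟨G.op i, h, G.op_op i⟩

theorem trS_fl (S : Finset P) : trS (fl G) (S.image G.op) = trS G S := by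
  funext i
  change G.nxt (if i ∈ S.image G.op ∨ G.op i ∈ S.image G.op then G.op i else i) = G.nxt (if i ∈ S ∨ G.op i ∈ S then G.op i else i)
  have h : (i ∈ S.image G.op ∨ G.op i ∈ S.image G.op) ↔ (i ∈ S ∨ G.op i ∈ S) := by
    rw [mem_image_op, mem_image_op, G.op_op]
    exact or_comm
  by_cases h1 : i ∈ S ∨ G.op i ∈ S
  · rw [if_pos h1, if_pos (h.2 h1)]
  · rw [if_neg h1, if_neg fun h2 => h1 (h.1 h2)]

theorem sg_fl (S : Finset P) : Sg (fl G) b (S.image G.op) ↔ Sg G b S := by
  unfold Sg
  rw [trS_fl]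

theorem bef_fl (S : Finset P) (i j : P) : Bef (fl G) b (S.image G.op) i j ↔ Bef G b S i j := by
  unfold Bef
  rw [trS_fl]

theorem nT_fl (a : P) : nT (fl G) m a = m a - nT G m a := by
  rw [← nT_compl]
  unfold nT
  congr 1
  apply filter_congr
  intro r _
  change (!G.lf (G.nxt^[r] a)) = true ↔ G.lf (G.nxt^[r] a) = false
  cases G.lf (G.nxt^[r] a) <;> simp

theorem vv_fl (hT : Twist G A m) (hT' : Twist (fl G) A m) (S : Finset P) (x : P) :
    vv hT' b (S.image G.op) (G.op x) = 1 - vv hT b S x := by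
  have hA : (hT.cov x).choose ∈ A := (hT.cov x).choose_spec.1
  have hm : 1 ≤ m (hT.cov x).choose := hT.pos _ hA
  have hm0 : (m (hT.cov x).choose : ℝ) ≠ 0 := by
    have : (1 : ℝ) ≤ m (hT.cov x).choose := by exact_mod_cast hm
    linarith
  obtain ⟨r, hr, hx⟩ := cov_spec hT x
  have hx' : G.op x = (fl G).nxt^[r] (hT.cov x).choose ∨ G.op x = (fl G).op ((fl G).nxt^[r] (hT.cov x).choose) := by
    rcases hx with hx | hx
    · right
      exact congrArg G.op hx
    · left
      have h := congrArg G.op hx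
      rw [G.op_op] at h
      exact h
  have h1 : (hT'.cov (G.op x)).choose = (hT.cov x).choose := choose_eq hT' hA ⟨r, hr, hx'⟩
  have h2 : pas hT' (G.op x) = G.nxt^[r] (hT.cov x).choose := pas_eq hT' hA hr hx'
  have h3 : pas hT x = G.nxt^[r] (hT.cov x).choose := pas_eq hT hA hr hx
  have h4 : Bef (fl G) b (S.image G.op) (pas hT' (G.op x)) ((fl G).op (pas hT' (G.op x))) ↔
      Bef G b S (pas hT x) (G.op (pas hT x)) := by
    rw [h2, h3, bef_fl]
    exact Iff.rfl
  unfold vv
  rw [h1, nT_fl]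
  by_cases h5 : Bef G b S (pas hT x) (G.op (pas hT x))
  · rw [if_pos h5, if_pos (h4.2 h5), Nat.cast_sub (nT_le _)]
    field_simp
  · rw [if_neg h5, if_neg fun h6 => h5 (h4.1 h6), Nat.cast_sub (nT_le _)]
    field_simp

variable [Fintype P]

theorem xs_fl (ho : ∀ i, G.op i ≠ i) : Xs (fl G) = (Xs G).image G.op := by
  ext i
  rw [mem_image_op]
  unfold Xs
  rw [mem_filter, mem_filter]
  simp only [mem_univ, true_and]
  rw [G.lf_op i (ho i)]
  exact Iff.rfl

/-- **The count from below.** -/
theorem below (ho : ∀ i, G.op i ≠ i) (hT : Twist G A m) (hb : b ∈ A) {nab : Dg (fl G) → Polynomial ℤ} (h : Cw Polynomial.X 1 b nab)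
    (D : Dg (fl G)) (hD : ∀ i, D.st i = .pos) (j : ℕ) :
    ((nab D).coeff j : ℝ) = ∑ S ∈ ((Xs G).powersetCard j).filter (fun S => Sg G b S), ∏ x ∈ S, (1 - vv hT b S x) := by
  have hT' := twist_fl hT
  have hinj : Function.Injective G.op := fun x y hxy => op_inj G hxy
  rw [exact (G := fl G) ho hT' hb h D hD j]
  symm
  apply sum_bij (fun S _ => S.image G.op)
  · intro S hS
    rw [mem_filter, mem_powersetCard] at hS ⊢
    obtain ⟨⟨h1, h2⟩, h3⟩ := hS
    refine ⟨⟨?_, ?_⟩, (sg_fl S).2 h3⟩
    · rw [xs_fl ho]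
      exact image_subset_image h1
    · rw [card_image_of_injective _ hinj, h2]
  · intro S _ S' _ hSS
    exact image_injective hinj hSS
  · intro S' hS'
    rw [mem_filter, mem_powersetCard] at hS'
    obtain ⟨⟨h1, h2⟩, h3⟩ := hS'
    have e : (S'.image G.op).image G.op = S' := by
      ext i
      rw [mem_image_op, mem_image_op, G.op_op]
    refine ⟨S'.image G.op, ?_, e⟩
    rw [mem_filter, mem_powersetCard]
    refine ⟨⟨?_, ?_⟩, ?_⟩
    · intro i hi
      rw [mem_image_op] at hi
      have h4 := h1 hi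
      rw [xs_fl ho, mem_image_op, G.op_op] at h4
      exact h4
    · rw [card_image_of_injective _ hinj, h2]
    · rw [← sg_fl, e]
      exact h3
  · intro S _
    rw [prod_image fun x _ y _ hxy => hinj hxy]
    exact prod_congr rfl fun x _ => (vv_fl hT hT' S x).symm

end Pool.Agent.Helper10.AT
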