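import Pool.Agent.Helper61.TW.Count

/-!
# AT+, leaf U3: the exact count of the ascending states of a diagram with twist regions

Adaptation of `Helper61/TW/Count.lean`: the weight of a crossing of an untreated region depends on the state.
-/

set_option autoImplicit false

namespace Pool.Agent.Helper10.AT

open Pool.Agent.Helper85.Exp Pool.Agent.Helper61.TW Classical Finset

variable {P : Type} {G : Sh P} {A : Finset P} {m : P → ℕ} {b : P}

/-- the number of the crossings of the region of `a` which are passed under by the strand of `a` -/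
noncomputable def nT (G : Sh P) (m : P → ℕ) (a : P) : ℕ := ((range (m a)).filter fun r => G.lf (G.nxt^[r] a) = true).card

theorem nT_le (a : P) : nT G m a ≤ m a := by
  unfold nT
  exact (card_filter_le _ _).trans (by rw [card_range])

theorem nT_compl (a : P) : ((range (m a)).filter fun r => G.lf (G.nxt^[r] a) = false).card = m a - nT G m a := by
  have h := card_filter_add_card_filter_not (s := range (m a)) (fun r => G.lf (G.nxt^[r] a) = true)
  rw [card_range] at h
  have e : ((range (m a)).filter fun r => ¬ G.lf (G.nxt^[r] a) = true) =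
      (range (m a)).filter fun r => G.lf (G.nxt^[r] a) = false := by
    apply filter_congr
    intro r _
    cases G.lf (G.nxt^[r] a) <;> simp
  rw [e] at h
  unfold nT
  omega

/-- the number of the allowed positions, exactly -/
theorem allowed_eq (ho : ∀ i, G.op i ≠ i) (hT : Twist G A m) (hb : b ∈ A) {a : P} (ha : a ∈ A) {T : Finset P} (hTa : ∀ x ∈ T, ¬ In G m a x)
    (hS : Sg G b (insert (xr G a 0) T)) :
    ((range (m a)).filter fun r => Bef G b (insert (xr G a r) T) (xr G a r) (G.op (xr G a r))).card =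
      if Bef G b (insert (xr G a 0) T) a (G.op a) then nT G m a else m a - nT G m a := by
  have hcase := bef_total hS (show a ≠ G.op a from fun h => ho a h.symm)
  rcases hcase with ⟨c1, c2⟩ | ⟨c1, c2⟩
  · have e : ((range (m a)).filter fun r => Bef G b (insert (xr G a r) T) (xr G a r) (G.op (xr G a r))) =
        (range (m a)).filter fun r => G.lf (G.nxt^[r] a) = true := by
      apply filter_congr
      intro r hr
      obtain ⟨_, _, j3, j4⟩ := inv_all ho hT hb ha hTa (mem_range.1 hr)
      by_cases hl : G.lf (G.nxt^[r] a) = true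
      · have hx : xr G a r = G.nxt^[r] a := if_pos hl
        rw [hx] at j3 ⊢
        exact iff_of_true (j3.2 c1) hl
      · have hx : xr G a r = G.op (G.nxt^[r] a) := if_neg hl
        rw [hx] at j4 ⊢
        rw [G.op_op]
        exact iff_of_false (fun h => c2 (j4.1 h)) hl
    rw [e, if_pos c1]
    rfl
  · have e : ((range (m a)).filter fun r => Bef G b (insert (xr G a r) T) (xr G a r) (G.op (xr G a r))) =
        (range (m a)).filter fun r => G.lf (G.nxt^[r] a) = false := by
      apply filter_congr
      intro r hr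
      obtain ⟨_, _, j3, j4⟩ := inv_all ho hT hb ha hTa (mem_range.1 hr)
      by_cases hl : G.lf (G.nxt^[r] a) = true
      · have hx : xr G a r = G.nxt^[r] a := if_pos hl
        rw [hx] at j3 ⊢
        exact iff_of_false (fun h => c2 (j3.1 h)) (by rw [hl]; decide)
      · have hx : xr G a r = G.op (G.nxt^[r] a) := if_neg hl
        rw [hx] at j4 ⊢
        rw [G.op_op]
        refine iff_of_true (j4.2 c1) ?_
        simpa using hl
    rw [e, if_neg c2]
    exact nT_compl a

/-- the factor of a crossing -/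
noncomputable def omv (G : Sh P) (m : P → ℕ) (b : P) (v : Finset P → P → ℝ) (A' S : Finset P) (x : P) : ℝ :=
  if ∃ a ∈ A', In G m a x then (if Bef G b S x (G.op x) then 1 else 0) else v S x

/-- the weight of a state -/
noncomputable def phv (G : Sh P) (m : P → ℕ) (b : P) (v : Finset P → P → ℝ) (j : ℕ) (A' S : Finset P) : ℝ :=
  if Sg G b S ∧ S.card = j then ∏ x ∈ S, omv G m b v A' S x else 0

variable [Fintype P]

/-- **One region.** -/
theorem cstep_eq (ho : ∀ i, G.op i ≠ i) (hT : Twist G A m) (hb : b ∈ A) {v : Finset P → P → ℝ}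
    (hv1 : ∀ a ∈ A, ∀ T : Finset P, (∀ x ∈ T, ¬ In G m a x) → ∀ r < m a, ∀ x ∈ T, v (insert (xr G a r) T) x = v (insert (xr G a 0) T) x)
    (hv2 : ∀ a ∈ A, ∀ T : Finset P, (∀ x ∈ T, ¬ In G m a x) → Sg G b (insert (xr G a 0) T) →
      ∑ r ∈ range (m a), v (insert (xr G a r) T) (xr G a r) =
        (((range (m a)).filter fun r => Bef G b (insert (xr G a r) T) (xr G a r) (G.op (xr G a r))).card : ℝ))
    (j : ℕ) {A' : Finset P} (hA' : A' ⊆ A) {a : P} (ha : a ∈ A) (haA : a ∉ A') :
    ∑ S ∈ (Xs G).powerset, phv G m b v j A' S = ∑ S ∈ (Xs G).powerset, phv G m b v j (insert a A') S := by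
  obtain ⟨Y, hY⟩ : ∃ Y : Finset P, Y = (Xs G).filter fun x => ¬ In G m a x := ⟨_, rfl⟩
  have hU : Xs G = Y ∪ Rg G m a := by
    rw [hY]
    unfold Rg
    rw [union_comm, filter_union_filter_not_eq]
  have hd : Disjoint Y (Rg G m a) := by
    rw [hY]
    unfold Rg
    exact (disjoint_filter_filter_not _ _ _).symm
  have hz : ∀ B : Finset P, ∀ S ⊆ Y ∪ Rg G m a, ∀ x ∈ S, ∀ y ∈ S, x ∈ Rg G m a → y ∈ Rg G m a → x ≠ y → phv G m b v j B S = 0 := by
    intro B S _ x hx y hy hxR hyR hxy
    unfold phv
    rw [if_neg]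
    rintro ⟨hS, _⟩
    unfold Rg Xs at hxR hyR
    rw [mem_filter, mem_filter] at hxR hyR
    obtain ⟨⟨_, lx⟩, r, hr, h⟩ := hxR
    obtain ⟨⟨_, ly⟩, r', hr', h'⟩ := hyR
    have m1 : G.nxt^[r] a ∈ S ∨ G.op (G.nxt^[r] a) ∈ S := by
      rcases h with h | h
      · exact Or.inl (h ▸ hx)
      · exact Or.inr (h ▸ hx)
    have m2 : G.nxt^[r'] a ∈ S ∨ G.op (G.nxt^[r'] a) ∈ S := by
      rcases h' with h' | h'
      · exact Or.inl (h' ▸ hy)
      · exact Or.inr (h' ▸ hy)
    rcases lt_trichotomy r r' with hlt | heq | hlt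
    · exact Pool.Agent.Helper41.TW.two hT ho ha hlt hr' m1 m2 b hS
    · subst heq
      rcases h with h | h <;> rcases h' with h' | h'
      · exact hxy (h.trans h'.symm)
      · rw [h', G.lf_op _ (ho _), ← h, lx] at ly
        exact absurd ly (by decide)
      · rw [h, G.lf_op _ (ho _), ← h', ly] at lx
        exact absurd lx (by decide)
      · exact hxy (h.trans h'.symm)
    · exact Pool.Agent.Helper41.TW.two hT ho ha hlt hr m2 m1 b hS
  have e : ∀ B : Finset P, ∑ S ∈ (Xs G).powerset, phv G m b v j B S =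
      ∑ T ∈ Y.powerset, (phv G m b v j B T + ∑ r ∈ range (m a), phv G m b v j B (insert (xr G a r) T)) := by
    intro B
    rw [hU, sum_split (phv G m b v j B) Y (Rg G m a) hd (hz B)]
    refine sum_congr rfl fun T _ => ?_
    rw [sum_rg ho hT ha (fun x => phv G m b v j B (insert x T))]
  rw [e, e]
  have hTT : ∀ T ∈ Y.powerset, ∀ x ∈ T, ¬ In G m a x := by
    intro T hTY x hx
    have := mem_powerset.1 hTY hx
    rw [hY, mem_filter] at this
    exact this.2
  have om_eq : ∀ S x, ¬ In G m a x → omv G m b v (insert a A') S x = omv G m b v A' S x := by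
    intro S x hx
    unfold omv
    have : (∃ a' ∈ insert a A', In G m a' x) ↔ ∃ a' ∈ A', In G m a' x := by
      constructor
      · rintro ⟨a', h1, h2⟩
        rcases mem_insert.1 h1 with h1 | h1
        · exact absurd (h1 ▸ h2) hx
        · exact ⟨a', h1, h2⟩
      · rintro ⟨a', h1, h2⟩
        exact ⟨a', mem_insert_of_mem h1, h2⟩
    by_cases h : ∃ a' ∈ A', In G m a' x
    · rw [if_pos h, if_pos (this.2 h)]
    · rw [if_neg h, if_neg (fun h' => h (this.1 h'))]
  have same : ∀ T ∈ Y.powerset, phv G m b v j (insert a A') T = phv G m b v j A' T := by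
    intro T hTY
    unfold phv
    split_ifs with h
    · exact prod_congr rfl fun x hx => om_eq T x (hTT T hTY x hx)
    · rfl
  refine sum_congr rfl fun T hTY => ?_
  rw [same T hTY]
  congr 1
  have hTa := hTT T hTY
  have hin : ∀ r < m a, In G m a (xr G a r) := by
    intro r hr
    rcases xr_or (G := G) a r with h1 | h1
    · exact ⟨r, hr, Or.inl h1⟩
    · exact ⟨r, hr, Or.inr h1⟩
  have hnot : ∀ r < m a, xr G a r ∉ T := fun r hr h => hTa _ h (hin r hr)
  by_cases hS : Sg G b (insert (xr G a 0) T) ∧ T.card + 1 = j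
  · obtain ⟨hS, hj⟩ := hS
    have hSr : ∀ r < m a, Sg G b (insert (xr G a r) T) := fun r hr => (inv_all ho hT hb ha hTa hr).1.2 hS
    have hprod : ∀ r < m a, ∏ x ∈ T, omv G m b v A' (insert (xr G a r) T) x = ∏ x ∈ T, omv G m b v A' (insert (xr G a 0) T) x := by
      intro r hr
      refine prod_congr rfl fun x hx => ?_
      have h2 := (inv_all ho hT hb ha hTa hr).2.1 x (hTa x hx)
      unfold omv
      split_ifs with h3 h4 h5 h5
      · rfl
      · exact absurd (h2.1 h4) h5
      · exact absurd (h2.2 h5) h4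
      · rfl
      · exact hv1 a ha T hTa r hr x hx
    have s1 : ∑ r ∈ range (m a), phv G m b v j A' (insert (xr G a r) T) =
        (∏ x ∈ T, omv G m b v A' (insert (xr G a 0) T) x) * ∑ r ∈ range (m a), v (insert (xr G a r) T) (xr G a r) := by
      rw [mul_sum]
      refine sum_congr rfl fun r hr => ?_
      rw [mem_range] at hr
      unfold phv
      rw [if_pos ⟨hSr r hr, by rw [card_insert_of_notMem (hnot r hr), hj]⟩, prod_insert (hnot r hr), hprod r hr]
      have : omv G m b v A' (insert (xr G a r) T) (xr G a r) = v (insert (xr G a r) T) (xr G a r) := by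
        unfold omv
        rw [if_neg]
        rintro ⟨a', h1, h2⟩
        exact haA (in_unique hT ha (hA' h1) (hin r hr) h2 ▸ h1)
      rw [this, mul_comm]
    have s2 : ∑ r ∈ range (m a), phv G m b v j (insert a A') (insert (xr G a r) T) =
        (∏ x ∈ T, omv G m b v A' (insert (xr G a 0) T) x) *
          (((range (m a)).filter fun r => Bef G b (insert (xr G a r) T) (xr G a r) (G.op (xr G a r))).card : ℝ) := by
      rw [card_filter, Nat.cast_sum, mul_sum]
      refine sum_congr rfl fun r hr => ?_
      rw [mem_range] at hr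
      unfold phv
      rw [if_pos ⟨hSr r hr, by rw [card_insert_of_notMem (hnot r hr), hj]⟩, prod_insert (hnot r hr)]
      have e1 : ∏ x ∈ T, omv G m b v (insert a A') (insert (xr G a r) T) x = ∏ x ∈ T, omv G m b v A' (insert (xr G a 0) T) x := by
        rw [← hprod r hr]
        exact prod_congr rfl fun x hx => om_eq _ x (hTa x hx)
      have e2 : omv G m b v (insert a A') (insert (xr G a r) T) (xr G a r) =
          if Bef G b (insert (xr G a r) T) (xr G a r) (G.op (xr G a r)) then 1 else 0 := by
        unfold omv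
        rw [if_pos ⟨a, mem_insert_self _ _, hin r hr⟩]
      rw [e1, e2, mul_comm]
      push_cast
      rfl
    rw [s1, s2, hv2 a ha T hTa hS]
  · have z : ∀ B : Finset P, ∑ r ∈ range (m a), phv G m b v j B (insert (xr G a r) T) = 0 := by
      intro B
      refine sum_eq_zero fun r hr => ?_
      rw [mem_range] at hr
      unfold phv
      rw [if_neg]
      rintro ⟨h1, h2⟩
      exact hS ⟨(inv_all ho hT hb ha hTa hr).1.1 h1, by rw [card_insert_of_notMem (hnot r hr)] at h2; exact h2⟩
    rw [z, z]

/-- **Counting, exactly**, for any weights with the right sums over the regions. -/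
theorem exact_gen (ho : ∀ i, G.op i ≠ i) (hT : Twist G A m) (hb : b ∈ A) {nab : Dg G → Polynomial ℤ} (h : Cw Polynomial.X 1 b nab) (D : Dg G)
    (hD : ∀ i, D.st i = .pos) {v : Finset P → P → ℝ}
    (hv1 : ∀ a ∈ A, ∀ T : Finset P, (∀ x ∈ T, ¬ In G m a x) → ∀ r < m a, ∀ x ∈ T, v (insert (xr G a r) T) x = v (insert (xr G a 0) T) x)
    (hv2 : ∀ a ∈ A, ∀ T : Finset P, (∀ x ∈ T, ¬ In G m a x) → Sg G b (insert (xr G a 0) T) →
      ∑ r ∈ range (m a), v (insert (xr G a r) T) (xr G a r) =
        (((range (m a)).filter fun r => Bef G b (insert (xr G a r) T) (xr G a r) (G.op (xr G a r))).card : ℝ)) (j : ℕ) :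
    ((nab D).coeff j : ℝ) = ∑ S ∈ ((Xs G).powersetCard j).filter (fun S => Sg G b S), ∏ x ∈ S, v S x := by
  have e0 : ∑ S ∈ ((Xs G).powersetCard j).filter (fun S => Sg G b S), ∏ x ∈ S, v S x = ∑ S ∈ (Xs G).powerset, phv G m b v j ∅ S := by
    rw [sum_filter, powersetCard_eq_filter, sum_filter]
    refine sum_congr rfl fun S _ => ?_
    unfold phv
    by_cases h1 : S.card = j
    · by_cases h2 : Sg G b S
      · rw [if_pos h1, if_pos h2, if_pos ⟨h2, h1⟩]
        refine prod_congr rfl fun x _ => ?_
        unfold omv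
        rw [if_neg (by simp)]
      · rw [if_pos h1, if_neg h2, if_neg fun h3 => h2 h3.1]
    · rw [if_neg h1, if_neg fun h3 => h1 h3.2]
  have e1 : ((nab D).coeff j : ℝ) = ∑ S ∈ (Xs G).powerset, phv G m b v j A S := by
    rw [coeff_eq ho h D hD j]
    push_cast
    rw [card_filter, powersetCard_eq_filter, sum_filter]
    push_cast
    refine sum_congr rfl fun S _ => ?_
    have hom : ∀ x, omv G m b v A S x = if Bef G b S x (G.op x) then 1 else 0 := by
      intro x
      unfold omv
      rw [if_pos]
      obtain ⟨a, ha, r, hr, hx⟩ := hT.cov x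
      exact ⟨a, ha, r, hr, hx⟩
    have hr : phv G m b v j A S = if Sg G b S ∧ S.card = j then ∏ x ∈ S, (if Bef G b S x (G.op x) then (1 : ℝ) else 0) else 0 := by
      unfold phv
      simp only [hom]
    rw [hr]
    by_cases h1 : S.card = j
    · rw [if_pos h1]
      by_cases h2 : Sg G b S
      · rw [if_pos (show Sg G b S ∧ S.card = j from ⟨h2, h1⟩)]
        by_cases h3 : ∀ i ∈ S, Bef G b S i (G.op i)
        · rw [if_pos (show Sg G b S ∧ ∀ i ∈ S, Bef G b S i (G.op i) from ⟨h2, h3⟩), prod_congr rfl fun x hx => if_pos (h3 x hx), prod_const_one]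
        · rw [if_neg (show ¬ (Sg G b S ∧ ∀ i ∈ S, Bef G b S i (G.op i)) from fun h4 => h3 h4.2)]
          push Not at h3
          obtain ⟨x, hx, h4⟩ := h3
          exact (prod_eq_zero hx (by rw [if_neg h4])).symm
      · rw [if_neg (show ¬ (Sg G b S ∧ ∀ i ∈ S, Bef G b S i (G.op i)) from fun h4 => h2 h4.1),
          if_neg (show ¬ (Sg G b S ∧ S.card = j) from fun h4 => h2 h4.1)]
    · rw [if_neg h1, if_neg (show ¬ (Sg G b S ∧ S.card = j) from fun h4 => h1 h4.2)]
  rw [e0, e1]
  have key : ∀ A' ⊆ A, ∑ S ∈ (Xs G).powerset, phv G m b v j ∅ S = ∑ S ∈ (Xs G).powerset, phv G m b v j A' S := by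
    intro A'
    induction A' using Finset.induction_on with
    | empty => intro _; rfl
    | insert a A' haA ih =>
      intro hsub
      have hA' : A' ⊆ A := (subset_insert _ _).trans hsub
      have ha : a ∈ A := hsub (mem_insert_self _ _)
      exact (ih hA').trans (cstep_eq ho hT hb hv1 hv2 j hA' ha haA)
  exact (key A subset_rfl).symm

omit [Fintype P] in
theorem cov_spec (hT : Twist G A m) (p : P) : ∃ r < m (hT.cov p).choose, p = G.nxt^[r] (hT.cov p).choose ∨ p = G.op (G.nxt^[r] (hT.cov p).choose) :=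
  (hT.cov p).choose_spec.2

/-- the passage of the crossing of `p` on the strand of its region (`(hT.cov p).choose` = the region) -/
noncomputable def pas (hT : Twist G A m) (p : P) : P := G.nxt^[(cov_spec hT p).choose] (hT.cov p).choose

omit [Fintype P] in
theorem pas_or (hT : Twist G A m) (p : P) : p = pas hT p ∨ p = G.op (pas hT p) := (cov_spec hT p).choose_spec.2

omit [Fintype P] in
theorem pas_in (hT : Twist G A m) (p : P) : In G m (hT.cov p).choose p := cov_spec hT p

omit [Fintype P] in
theorem choose_eq (hT : Twist G A m) {a p : P} (ha : a ∈ A) (h : In G m a p) : (hT.cov p).choose = a :=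
  in_unique hT (hT.cov p).choose_spec.1 ha (pas_in hT p) h

omit [Fintype P] in
theorem pas_eq (hT : Twist G A m) {a p : P} (ha : a ∈ A) {r : ℕ} (hr : r < m a) (h : p = G.nxt^[r] a ∨ p = G.op (G.nxt^[r] a)) :
    pas hT p = G.nxt^[r] a := by
  have h1 : (hT.cov p).choose = a := choose_eq hT ha ⟨r, hr, h⟩
  obtain ⟨hr', h'⟩ := (cov_spec hT p).choose_spec
  have h2 : (cov_spec hT p).choose = r := by
    have hA := (hT.cov p).choose_spec.1
    rcases h with h | h <;> rcases h' with h' | h'
    · exact (hT.inj _ hA a ha _ hr' r hr (Or.inl (h'.symm.trans h))).2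
    · exact ((hT.inj a ha _ hA r hr _ hr' (Or.inr (h.symm.trans h'))).2).symm
    · exact (hT.inj _ hA a ha _ hr' r hr (Or.inr (h'.symm.trans h))).2
    · exact (hT.inj _ hA a ha _ hr' r hr (Or.inl (op_inj G (h'.symm.trans h)))).2
  unfold pas
  rw [h2, h1]

/-- the exact weight: the proportion of the allowed positions in the region of `x` in the state `S` -/
noncomputable def vv (hT : Twist G A m) (b : P) (S : Finset P) (x : P) : ℝ :=
  if Bef G b S (pas hT x) (G.op (pas hT x)) then (nT G m (hT.cov x).choose : ℝ) / m (hT.cov x).choose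
  else ((m (hT.cov x).choose : ℝ) - nT G m (hT.cov x).choose) / m (hT.cov x).choose

/-- **Leaf U3.** -/
theorem exact (ho : ∀ i, G.op i ≠ i) (hT : Twist G A m) (hb : b ∈ A) {nab : Dg G → Polynomial ℤ} (h : Cw Polynomial.X 1 b nab) (D : Dg G)
    (hD : ∀ i, D.st i = .pos) (j : ℕ) :
    ((nab D).coeff j : ℝ) = ∑ S ∈ ((Xs G).powersetCard j).filter (fun S => Sg G b S), ∏ x ∈ S, vv hT b S x := by
  refine exact_gen ho hT hb h D hD ?_ ?_ j
  · intro a ha T hTa r hr x hx
    have hxa := hTa x hx
    have hp : ¬ In G m a (pas hT x) := by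
      rcases pas_or hT x with h1 | h1
      · rwa [← h1]
      · intro h2
        apply hxa
        rw [h1]
        exact in_op.2 h2
    have h2 := (inv_all ho hT hb ha hTa hr).2.1 _ hp
    unfold vv
    by_cases h3 : Bef G b (insert (xr G a 0) T) (pas hT x) (G.op (pas hT x))
    · rw [if_pos h3, if_pos (h2.2 h3)]
    · rw [if_neg h3, if_neg fun h4 => h3 (h2.1 h4)]
  · intro a ha T hTa hS
    have hm : 1 ≤ m a := hT.pos a ha
    have hm0 : (m a : ℝ) ≠ 0 := by
      have : (1 : ℝ) ≤ m a := by exact_mod_cast hm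
      linarith
    rw [allowed_eq ho hT hb ha hTa hS]
    have hterm : ∀ r ∈ range (m a), vv hT b (insert (xr G a r) T) (xr G a r) =
        if Bef G b (insert (xr G a 0) T) a (G.op a) then (nT G m a : ℝ) / m a else ((m a : ℝ) - nT G m a) / m a := by
      intro r hr
      rw [mem_range] at hr
      have h1 : (hT.cov (xr G a r)).choose = a := choose_eq hT ha ⟨r, hr, xr_or a r⟩
      have h2 : pas hT (xr G a r) = G.nxt^[r] a := pas_eq hT ha hr (xr_or a r)
      have h3 := (inv_all ho hT hb ha hTa hr).2.2.1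
      unfold vv
      rw [h1, h2]
      by_cases h4 : Bef G b (insert (xr G a 0) T) a (G.op a)
      · rw [if_pos h4, if_pos (h3.2 h4)]
      · rw [if_neg h4, if_neg fun h5 => h4 (h3.1 h5)]
    rw [sum_congr rfl hterm, sum_const, card_range, nsmul_eq_mul]
    split_ifs with h4
    · field_simp
    · rw [Nat.cast_sub (nT_le a)]
      field_simp

end Pool.Agent.Helper10.AT
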