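import Pool.Agent.Helper85.AT.Defs

/-!
# AT, leaf M, parity: the sign of the travelling permutation
-/

set_option autoImplicit false

namespace Pool.Agent.Helper10.AT

open Pool.Agent.Helper85.AT

variable {ι : Type*} [DecidableEq ι]

/-- exchange the two entries of the regions in `F` -/
def flipP (F : Finset ι) : Equiv.Perm (ι × Bool) where
  toFun x := if x.1 ∈ F then (x.1, !x.2) else x
  invFun x := if x.1 ∈ F then (x.1, !x.2) else x
  left_inv x := by
    by_cases h : x.1 ∈ F
    · simp [h]
    · simp [h]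
  right_inv x := by
    by_cases h : x.1 ∈ F
    · simp [h]
    · simp [h]

lemma flipP_apply (F : Finset ι) (x : ι × Bool) : flipP F x = if x.1 ∈ F then (x.1, !x.2) else x := rfl

lemma flipP_empty : flipP (∅ : Finset ι) = 1 := by
  ext x
  · simp [flipP_apply]
  · simp [flipP_apply]

lemma flipP_insert {i : ι} {F : Finset ι} (hi : i ∉ F) :
    flipP (insert i F) = Equiv.swap (i, false) (i, true) * flipP F := by
  refine Equiv.ext fun x => ?_
  rw [Equiv.Perm.mul_apply, flipP_apply, flipP_apply]
  obtain ⟨j, b⟩ := x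
  by_cases hj : j = i
  · subst hj
    simp only [Finset.mem_insert_self, if_true, hi, if_false]
    cases b
    · rw [Equiv.swap_apply_left]; rfl
    · rw [Equiv.swap_apply_right]; rfl
  · have h1 : ∀ c : Bool, Equiv.swap (i, false) (i, true) (j, c) = (j, c) := by
      intro c
      apply Equiv.swap_apply_of_ne_of_ne
      · intro h; exact hj (congrArg Prod.fst h)
      · intro h; exact hj (congrArg Prod.fst h)
    by_cases hF : j ∈ F
    · simp only [Finset.mem_insert, hj, false_or, hF, if_true]
      rw [h1]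
    · simp only [Finset.mem_insert, hj, false_or, hF, if_false]
      rw [h1]

lemma sign_flipP [Fintype ι] (F : Finset ι) : Equiv.Perm.sign (flipP F) = (-1) ^ F.card := by
  induction F using Finset.induction_on with
  | empty => rw [flipP_empty]; simp
  | insert i F hi ih =>
    rw [flipP_insert hi, Equiv.Perm.sign_mul, ih, Finset.card_insert_of_notMem hi,
      Equiv.Perm.sign_swap (by simp), pow_succ, mul_comm]

/-- the travelling permutation -/
def stepP (π : Equiv.Perm (ι × Bool)) (F : Finset ι) : Equiv.Perm (ι × Bool) := π * flipP F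

lemma stepP_apply (π : Equiv.Perm (ι × Bool)) (F : Finset ι) (x : ι × Bool) : stepP π F x = step π F x := rfl

lemma stepP_iter (π : Equiv.Perm (ι × Bool)) (F : Finset ι) (k : ℕ) (x : ι × Bool) :
    (stepP π F ^ k) x = (step π F)^[k] x := by
  rw [← Equiv.Perm.iterate_eq_pow]
  rfl

lemma sign_stepP [Fintype ι] (π : Equiv.Perm (ι × Bool)) (F : Finset ι) :
    Equiv.Perm.sign (stepP π F) = Equiv.Perm.sign π * (-1) ^ F.card := by
  unfold stepP
  rw [Equiv.Perm.sign_mul, sign_flipP]

lemma stepP_ne {π : Equiv.Perm (ι × Bool)} {F : Finset ι} (h : Ony π F) (x : ι × Bool) : stepP π F x ≠ x := by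
  intro hx
  obtain ⟨k, hk⟩ := h x (x.1, !x.2)
  have h1 : ∀ k : ℕ, (step π F)^[k] x = x := by
    intro k
    induction k with
    | zero => rfl
    | succ k ih => rw [Function.iterate_succ_apply', ih]; exact hx
  rw [h1 k] at hk
  have h2 : x.2 = !x.2 := congrArg Prod.snd hk
  cases hb : x.2 <;> rw [hb] at h2 <;> exact absurd h2 (by decide)

lemma cycle {π : Equiv.Perm (ι × Bool)} {F : Finset ι} (h : Ony π F) (x : ι × Bool) : (stepP π F).IsCycle := by
  refine ⟨x, stepP_ne h x, fun y _ => ?_⟩
  obtain ⟨k, hk⟩ := h x y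
  refine ⟨(k : ℤ), ?_⟩
  rw [zpow_natCast, stepP_iter]
  exact hk

/-- The sign of the travelling permutation of a state with one circuit. -/
lemma sign_ony [Fintype ι] {π : Equiv.Perm (ι × Bool)} {F : Finset ι} (h : Ony π F) (x : ι × Bool) :
    Equiv.Perm.sign (stepP π F) = -1 := by
  have h1 := (cycle h x).sign
  have h2 : (stepP π F).support = Finset.univ := by
    ext y
    simp only [Equiv.Perm.mem_support, Finset.mem_univ, iff_true]
    exact stepP_ne h y
  rw [h1, h2, Finset.card_univ, Fintype.card_prod, Fintype.card_bool, mul_comm, pow_mul]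
  norm_num

/-- **Leaf M, parity.** -/
theorem parity [Fintype ι] {π : Equiv.Perm (ι × Bool)} {F F' : Finset ι} (h : Ony π F) (h' : Ony π F') :
    F.card % 2 = F'.card % 2 := by
  rcases isEmpty_or_nonempty ι with he | ⟨⟨i⟩⟩
  · rw [Finset.eq_empty_of_isEmpty F, Finset.eq_empty_of_isEmpty F']
  · have h1 := sign_ony h (i, false)
    have h2 := sign_ony h' (i, false)
    rw [sign_stepP] at h1 h2
    have h3 : ((-1 : ℤˣ)) ^ F.card = (-1) ^ F'.card := mul_left_cancel (h1.trans h2.symm)
    rcases Nat.even_or_odd F.card with ha | ha <;> rcases Nat.even_or_odd F'.card with hb | hb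
    · rw [Nat.even_iff.1 ha, Nat.even_iff.1 hb]
    · rw [ha.neg_one_pow, hb.neg_one_pow] at h3
      exact absurd h3 (by decide)
    · rw [ha.neg_one_pow, hb.neg_one_pow] at h3
      exact absurd h3 (by decide)
    · rw [Nat.odd_iff.1 ha, Nat.odd_iff.1 hb]

end Pool.Agent.Helper10.AT
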